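import Mathlib
import Pool.Agent.Work.MP_9999b5_ms.Defs

set_option autoImplicit false

namespace Pool.Agent.Work.MaxSums.helper90Repart

open Finset Pool.Agent.Work.MaxSums

theorem card_supersets {ι : Type} [DecidableEq ι] (A V : Finset ι) (n : ℕ) (hV : V ⊆ A)
    (hn : V.card ≤ n) :
    ((A.powersetCard n).filter (fun U => V ⊆ U)).card = (A.card - V.card).choose (n - V.card) := by
  have h1 : (A.card - V.card).choose (n - V.card) = ((A \ V).powersetCard (n - V.card)).card := by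
    rw [Finset.card_powersetCard, Finset.card_sdiff_of_subset hV]
  rw [h1]
  refine Finset.card_nbij' (fun U => U \ V) (fun U => U ∪ V) ?_ ?_ ?_ ?_
  · intro U hU
    obtain ⟨hU1, hU2⟩ := Finset.mem_filter.1 hU
    obtain ⟨hU3, hU4⟩ := Finset.mem_powersetCard.1 hU1
    refine Finset.mem_powersetCard.2 ⟨Finset.sdiff_subset_sdiff hU3 (Finset.Subset.refl V), ?_⟩
    rw [Finset.card_sdiff_of_subset hU2, hU4]
  · intro U hU
    obtain ⟨hU3, hU4⟩ := Finset.mem_powersetCard.1 hU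
    have hd : Disjoint U V := by
      rw [Finset.disjoint_left]
      intro a ha
      exact (Finset.mem_sdiff.1 (hU3 ha)).2
    refine Finset.mem_filter.2 ⟨Finset.mem_powersetCard.2 ⟨?_, ?_⟩, Finset.subset_union_right⟩
    · intro a ha
      rcases Finset.mem_union.1 ha with h | h
      · exact (Finset.mem_sdiff.1 (hU3 h)).1
      · exact hV h
    · rw [Finset.card_union_of_disjoint hd, hU4]; omega
  · intro U hU
    obtain ⟨hU1, hU2⟩ := Finset.mem_filter.1 hU
    exact Finset.sdiff_union_of_subset hU2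
  · intro U hU
    obtain ⟨hU3, hU4⟩ := Finset.mem_powersetCard.1 hU
    have hd : Disjoint U V := by
      rw [Finset.disjoint_left]
      intro a ha
      exact (Finset.mem_sdiff.1 (hU3 ha)).2
    exact Finset.union_sdiff_cancel_right hd

theorem double_count {ι : Type} [DecidableEq ι] (A : Finset ι) (n i : ℕ) (hi : i ≤ n)
    (F : Finset ι → ℝ) :
    ∑ U ∈ A.powersetCard n, ∑ V ∈ U.powersetCard i, F V =
      ((A.card - i).choose (n - i) : ℝ) * ∑ V ∈ A.powersetCard i, F V := by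
  classical
  have h1 : ∑ U ∈ A.powersetCard n, ∑ V ∈ U.powersetCard i, F V =
      ∑ V ∈ A.powersetCard i, ∑ _U ∈ (A.powersetCard n).filter (fun U => V ⊆ U), F V := by
    apply Finset.sum_comm'
    intro U V
    simp only [Finset.mem_powersetCard, Finset.mem_filter]
    constructor
    · rintro ⟨⟨h1, h2⟩, h3, h4⟩
      exact ⟨⟨⟨h1, h2⟩, h3⟩, h3.trans h1, h4⟩
    · rintro ⟨⟨⟨h1, h2⟩, h3⟩, _, h4⟩
      exact ⟨⟨h1, h2⟩, h3, h4⟩
  rw [h1, Finset.mul_sum]
  refine Finset.sum_congr rfl fun V hV => ?_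
  obtain ⟨hV1, hV2⟩ := Finset.mem_powersetCard.1 hV
  rw [Finset.sum_const, card_supersets A V n hV1 (by omega), hV2, nsmul_eq_mul]

theorem sum_compl {ι : Type} [DecidableEq ι] (U : Finset ι) (i : ℕ) (hi : i ≤ U.card)
    (F : Finset ι → ℝ) :
    ∑ V ∈ U.powersetCard i, F (U \ V) = ∑ V ∈ U.powersetCard (U.card - i), F V := by
  refine Finset.sum_nbij' (fun V => U \ V) (fun V => U \ V) ?_ ?_ ?_ ?_ ?_
  · intro V hV
    obtain ⟨h1, h2⟩ := Finset.mem_powersetCard.1 hV
    refine Finset.mem_powersetCard.2 ⟨Finset.sdiff_subset, ?_⟩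
    rw [Finset.card_sdiff_of_subset h1, h2]
  · intro V hV
    obtain ⟨h1, h2⟩ := Finset.mem_powersetCard.1 hV
    refine Finset.mem_powersetCard.2 ⟨Finset.sdiff_subset, ?_⟩
    rw [Finset.card_sdiff_of_subset h1, h2]; omega
  · intro V hV
    exact Finset.sdiff_sdiff_eq_self (Finset.mem_powersetCard.1 hV).1
  · intro V hV
    exact Finset.sdiff_sdiff_eq_self (Finset.mem_powersetCard.1 hV).1
  · intro V _
    rfl

/-- few `j`-subsets of `A` have sum below `-σ/5` -/
theorem few_low (hCheb : Cheb) {ι : Type} [DecidableEq ι] (A : Finset ι) (j : ℕ) (x : ι → ℝ)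
    (σ : ℝ) (hA : 0 < A.card) (hj : j ≤ A.card) (hσ : 100 < σ)
    (hmean : -(σ / 100) ≤ (j : ℝ) / A.card * ∑ i ∈ A, x i)
    (hvar : (j : ℝ) / A.card * ∑ i ∈ A, x i ^ 2 ≤ 20) :
    (((A.powersetCard j).filter (fun V => ∑ i ∈ V, x i < -(σ / 5))).card : ℝ) ≤
      3 / 50 * (A.card.choose j : ℝ) := by
  have h1 := hCheb ι A j x (19 * σ / 100) hA hj (by linarith)
  have h2 : (((A.powersetCard j).filter (fun V => ∑ i ∈ V, x i < -(σ / 5))).card : ℝ) ≤
      (((A.powersetCard j).filter (fun S => 19 * σ / 100 ≤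
        |∑ i ∈ S, x i - (j : ℝ) / A.card * ∑ i ∈ A, x i|)).card : ℝ) := by
    have : ((A.powersetCard j).filter (fun V => ∑ i ∈ V, x i < -(σ / 5))) ⊆
        ((A.powersetCard j).filter (fun S => 19 * σ / 100 ≤
          |∑ i ∈ S, x i - (j : ℝ) / A.card * ∑ i ∈ A, x i|)) := by
      intro V hV
      rw [Finset.mem_filter] at hV ⊢
      refine ⟨hV.1, ?_⟩
      rw [abs_sub_comm]
      refine le_trans ?_ (le_abs_self _)
      linarith [hV.2]
    exact_mod_cast Finset.card_le_card this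
  set N := (((A.powersetCard j).filter (fun S => 19 * σ / 100 ≤
        |∑ i ∈ S, x i - (j : ℝ) / A.card * ∑ i ∈ A, x i|)).card : ℝ)
  set Cn := (A.card.choose j : ℝ)
  have hC0 : 0 ≤ Cn := by positivity
  have hN0 : 0 ≤ N := by positivity
  refine h2.trans ?_
  have h3 : N * (19 * σ / 100) ^ 2 ≤ Cn * 20 := h1.trans (by gcongr)
  have h4 : N * 361 ≤ N * (19 * σ / 100) ^ 2 := by
    apply mul_le_mul_of_nonneg_left _ hN0
    nlinarith
  linarith

theorem triple_sub {α β γ : Type} (s : Finset α) (t : Finset β) (u : α → Finset γ)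
    (o a b c : α → β → γ → ℝ) :
    ∑ U ∈ s, ∑ W ∈ t, ∑ V ∈ u U, (o U W V - a U W V - b U W V - c U W V) =
      ∑ U ∈ s, ∑ W ∈ t, ∑ V ∈ u U, o U W V - ∑ U ∈ s, ∑ W ∈ t, ∑ V ∈ u U, a U W V -
        ∑ U ∈ s, ∑ W ∈ t, ∑ V ∈ u U, b U W V - ∑ U ∈ s, ∑ W ∈ t, ∑ V ∈ u U, c U W V := by
  simp only [Finset.sum_sub_distrib]

theorem triple_w {α β γ : Type} (s : Finset α) (t : Finset β) (u : α → Finset γ) (cl : ℝ)
    (h : ∀ U ∈ s, ((u U).card : ℝ) = cl) (f : β → ℝ) :
    ∑ U ∈ s, ∑ W ∈ t, ∑ _V ∈ u U, f W = s.card * cl * ∑ W ∈ t, f W := by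
  have h1 : ∀ U ∈ s, ∑ W ∈ t, ∑ _V ∈ u U, f W = cl * ∑ W ∈ t, f W := by
    intro U hU
    rw [Finset.mul_sum]
    apply Finset.sum_congr rfl
    intro W _
    rw [Finset.sum_const, nsmul_eq_mul, h U hU]
  rw [Finset.sum_congr rfl h1, Finset.sum_const, nsmul_eq_mul, mul_assoc]

theorem triple_v {α β γ : Type} (s : Finset α) (t : Finset β) (u : α → Finset γ)
    (f : α → γ → ℝ) :
    ∑ U ∈ s, ∑ _W ∈ t, ∑ V ∈ u U, f U V = t.card * ∑ U ∈ s, ∑ V ∈ u U, f U V := by
  rw [Finset.mul_sum]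
  apply Finset.sum_congr rfl
  intro U _
  rw [Finset.sum_const, nsmul_eq_mul]

theorem sum_ind {α : Type} (s : Finset α) (P : α → Prop) [DecidablePred P] :
    ∑ a ∈ s, (if P a then (1 : ℝ) else 0) = ((s.filter P).card : ℝ) := by
  rw [Finset.sum_ite, Finset.sum_const_zero, add_zero, Finset.sum_const, nsmul_eq_mul, mul_one]

theorem cast_aux {α β : Type} (s : Finset α) (t : Finset β) (F : α → β → ℕ) (a b c : ℕ)
    (h : (a : ℝ) * b * c ≤ 20 * ∑ U ∈ s, ∑ W ∈ t, (F U W : ℝ)) :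
    a * b * c ≤ 20 * ∑ U ∈ s, ∑ W ∈ t, F U W := by
  exact_mod_cast h

/-- the number of triples with a bad `V`, and with a bad `U \ V` -/
theorem bad_v {ι : Type} [DecidableEq ι] (A : Finset ι) (n i : ℕ) (hi : i ≤ n) (_hn : n ≤ A.card)
    (P : Finset ι → Prop) [DecidablePred P] (q : ℝ)
    (h : (((A.powersetCard i).filter P).card : ℝ) ≤ q * (A.card.choose i : ℝ)) :
    ∑ U ∈ A.powersetCard n, ∑ V ∈ U.powersetCard i, (if P V then (1 : ℝ) else 0) ≤
      q * ((A.card.choose n : ℝ) * (n.choose i : ℝ)) := by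
  rw [double_count A n i hi, sum_ind]
  have h4 : ((A.card.choose n : ℝ) * (n.choose i : ℝ)) =
      (A.card.choose i : ℝ) * ((A.card - i).choose (n - i) : ℝ) := by
    exact_mod_cast Nat.choose_mul (n := A.card) (k := n) (s := i) hi
  rw [h4]
  calc ((A.card - i).choose (n - i) : ℝ) * _ ≤
      ((A.card - i).choose (n - i) : ℝ) * (q * (A.card.choose i : ℝ)) := by gcongr
    _ = q * ((A.card.choose i : ℝ) * ((A.card - i).choose (n - i) : ℝ)) := by ring

theorem bad_v' {ι : Type} [DecidableEq ι] (A : Finset ι) (n i : ℕ) (hi : i ≤ n) (_hn : n ≤ A.card)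
    (P : Finset ι → Prop) [DecidablePred P] (q : ℝ)
    (h : (((A.powersetCard (n - i)).filter P).card : ℝ) ≤ q * (A.card.choose (n - i) : ℝ)) :
    ∑ U ∈ A.powersetCard n, ∑ V ∈ U.powersetCard i, (if P (U \ V) then (1 : ℝ) else 0) ≤
      q * ((A.card.choose n : ℝ) * (n.choose i : ℝ)) := by
  have h1 := bad_v A n (n - i) (by omega) _hn P q h
  rw [Nat.choose_symm hi] at h1
  refine le_trans (le_of_eq ?_) h1
  apply Finset.sum_congr rfl
  intro U hU
  have hUc := (Finset.mem_powersetCard.1 hU).2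
  rw [sum_compl U i (by omega) (fun V => if P V then (1 : ℝ) else 0), hUc]

theorem holds (hCheb : Cheb) (hClean : Clean) : Repart := by
  intro ι _ R O S x k hT hB hS hSc hσ hQ
  have hk := hT.hk
  set i : ℕ := k / 2 with hi
  set B := R \ O with hBdef
  set A := B \ S with hAdef
  set σ : ℝ := ∑ a ∈ S, x a with hσdef
  have hBR : B ⊆ R := Finset.sdiff_subset
  have hSR : S ⊆ R := hS.trans hBR
  have hBc : B.card = R.card - O.card := Finset.card_sdiff_of_subset hT.sub
  have hOc : O.card ≤ R.card := Finset.card_le_card hT.sub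
  have hAc : A.card = B.card - k := by rw [hAdef, Finset.card_sdiff_of_subset hS, hSc]
  have hRSc : (R \ S).card = R.card - k := by rw [Finset.card_sdiff_of_subset hSR, hSc]
  have hBk : 100000 * k ≤ B.card := hB
  have hA0 : 0 < A.card := by omega
  -- sums over A
  have hsumA : ∑ a ∈ A, x a = ∑ a ∈ B, x a - σ := by
    rw [hAdef, hσdef, ← Finset.sum_sdiff hS]; ring
  have hsqA : ∑ a ∈ A, x a ^ 2 ≤ ∑ a ∈ B, x a ^ 2 :=
    Finset.sum_le_sum_of_subset_of_nonneg Finset.sdiff_subset fun _ _ _ => sq_nonneg _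
  have hkr : (2 : ℝ) ≤ k := by exact_mod_cast hk
  have hBr : (100000 : ℝ) * k ≤ B.card := by exact_mod_cast hBk
  have hAr : (A.card : ℝ) = B.card - k := by
    rw [hAc, Nat.cast_sub (by omega)]
  have hAr0 : (0 : ℝ) < A.card := by exact_mod_cast hA0
  have hAB : (B.card : ℝ) ≤ 1.001 * A.card := by rw [hAr]; linarith
  have hAk : (99999 : ℝ) * k ≤ A.card := by rw [hAr]; linarith
  have hmean : ∀ j : ℕ, 2 * j ≤ k → -(σ / 100) ≤ (j : ℝ) / A.card * ∑ a ∈ A, x a := by
    intro j hj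
    have hjr : (2 : ℝ) * j ≤ k := by exact_mod_cast hj
    have h1 : -1 - σ ≤ ∑ a ∈ A, x a := by rw [hsumA]; linarith [hT.sum_ge]
    have h2 : 0 ≤ (j : ℝ) / A.card := by positivity
    have h3 : (j : ℝ) / A.card ≤ 1 / 1000 := by
      rw [div_le_iff₀ hAr0]; linarith
    have h4 : (j : ℝ) / A.card * (-1 - σ) ≤ (j : ℝ) / A.card * ∑ a ∈ A, x a :=
      mul_le_mul_of_nonneg_left h1 h2
    nlinarith
  have hvar : ∀ j : ℕ, 2 * j ≤ k → (j : ℝ) / A.card * ∑ a ∈ A, x a ^ 2 ≤ 20 := by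
    intro j hj
    have hjr : (2 : ℝ) * j ≤ k := by exact_mod_cast hj
    have h1 := hT.sq_le
    rw [← hBdef] at h1
    rw [div_mul_eq_mul_div, div_le_iff₀ hAr0]
    have h2 : (0 : ℝ) ≤ ∑ a ∈ A, x a ^ 2 := by positivity
    have h3 : (j : ℝ) * ∑ a ∈ A, x a ^ 2 ≤ (k / 2) * ∑ a ∈ B, x a ^ 2 := by
      have : (j : ℝ) ≤ k / 2 := by linarith
      gcongr
    nlinarith
  have hi1 : 2 * i ≤ k := by omega
  have hi2 : 2 * (k - 1 - i) ≤ k := by omega
  have hiA : i ≤ A.card := by omega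
  have hiA' : k - 1 - i ≤ A.card := by omega
  have low1 := few_low hCheb A i x σ hA0 hiA hσ (hmean i hi1) (hvar i hi1)
  have low2 := few_low hCheb A (k - 1 - i) x σ hA0 hiA' hσ (hmean _ hi2) (hvar _ hi2)
  -- bad W
  have hk0 : (0 : ℝ) < k := by linarith
  have badW : (((S.powersetCard i).filter (fun W => σ / 8 ≤
      |∑ a ∈ W, x a - (i : ℝ) / S.card * σ|)).card : ℝ) ≤ 49 / 100 * (k.choose i : ℝ) := by
    have h1 := hCheb ι S i x (σ / 8) (by omega) (by omega) (by linarith)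
    rw [← hσdef, hSc] at h1
    rw [hSc]
    have h2 : (i : ℝ) / k * ∑ a ∈ S, x a ^ 2 ≤ 76 := by
      have h3 : (i : ℝ) / k ≤ 1 / 2 := by
        rw [div_le_iff₀ hk0]
        have : (2 : ℝ) * i ≤ k := by exact_mod_cast hi1
        linarith
      have h4 : 0 ≤ (i : ℝ) / k := by positivity
      have h5 : 0 ≤ ∑ a ∈ S, x a ^ 2 := by positivity
      nlinarith
    set N := (((S.powersetCard i).filter (fun W => σ / 8 ≤
      |∑ a ∈ W, x a - (i : ℝ) / k * σ|)).card : ℝ)
    have hN0 : 0 ≤ N := by positivity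
    have hC0 : (0 : ℝ) ≤ (k.choose i : ℝ) := by positivity
    have h3 : N * (σ / 8) ^ 2 ≤ (k.choose i : ℝ) * 76 := h1.trans (by gcongr)
    have h4 : N * (10000 / 64) ≤ N * (σ / 8) ^ 2 := by
      apply mul_le_mul_of_nonneg_left _ hN0
      nlinarith
    linarith
  -- goodness
  have hgood : ∀ U ∈ A.powersetCard (k - 1), ∀ W ∈ S.powersetCard i, ∀ V ∈ U.powersetCard i,
      (1 : ℝ) - (if σ / 8 ≤ |∑ a ∈ W, x a - (i : ℝ) / S.card * σ| then 1 else 0) -
        (if ∑ a ∈ V, x a < -(σ / 5) then 1 else 0) -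
        (if ∑ a ∈ U \ V, x a < -(σ / 5) then 1 else 0) ≤
      (if 0 < ∑ a ∈ (S \ W) ∪ V, x a ∧ -1 < ∑ a ∈ (U \ V) ∪ W, x a then 1 else 0) := by
    intro U hU W hW V hV
    obtain ⟨hU1, hU2⟩ := Finset.mem_powersetCard.1 hU
    obtain ⟨hW1, hW2⟩ := Finset.mem_powersetCard.1 hW
    obtain ⟨hV1, hV2⟩ := Finset.mem_powersetCard.1 hV
    by_cases h1 : σ / 8 ≤ |∑ a ∈ W, x a - (i : ℝ) / S.card * σ|
    · rw [if_pos h1]
      split_ifs <;> norm_num
    by_cases h2 : ∑ a ∈ V, x a < -(σ / 5)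
    · rw [if_pos h2]
      split_ifs <;> norm_num
    by_cases h3 : ∑ a ∈ U \ V, x a < -(σ / 5)
    · rw [if_pos h3]
      split_ifs <;> norm_num
    rw [if_neg h1, if_neg h2, if_neg h3]
    push Not at h1 h2 h3
    have hd1 : Disjoint (S \ W) V := by
      rw [Finset.disjoint_left]
      intro a ha hb
      exact (Finset.mem_sdiff.1 (hU1 (hV1 hb))).2 (Finset.mem_sdiff.1 ha).1
    have hd2 : Disjoint (U \ V) W := by
      rw [Finset.disjoint_left]
      intro a ha hb
      exact (Finset.mem_sdiff.1 (hU1 (Finset.mem_sdiff.1 ha).1)).2 (hW1 hb)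
    have hs1 : ∑ a ∈ S \ W, x a = σ - ∑ a ∈ W, x a := by
      rw [hσdef, ← Finset.sum_sdiff hW1]; ring
    have hratio1 : (i : ℝ) / S.card ≤ 1 / 2 := by
      rw [hSc, div_le_iff₀ hk0]
      have : (2 : ℝ) * i ≤ k := by exact_mod_cast hi1
      linarith
    have hratio2 : 1 / 3 ≤ (i : ℝ) / S.card := by
      rw [hSc, le_div_iff₀ hk0]
      have : (k : ℝ) ≤ 3 * i := by exact_mod_cast (by omega : k ≤ 3 * i)
      linarith
    rw [abs_lt] at h1
    rw [if_pos]
    · norm_num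
    constructor
    · rw [Finset.sum_union hd1, hs1]
      nlinarith [h1.2]
    · rw [Finset.sum_union hd2]
      nlinarith [h1.1]
  -- total over clean U
  set TT : ℝ := ∑ U ∈ A.powersetCard (k - 1), ∑ W ∈ S.powersetCard i,
      (((U.powersetCard i).filter (fun V =>
        0 < ∑ a ∈ (S \ W) ∪ V, x a ∧ -1 < ∑ a ∈ (U \ V) ∪ W, x a)).card : ℝ) with hTT
  set c' : ℝ := (A.card.choose (k - 1) : ℝ) with hc'
  set cki : ℝ := (k.choose i : ℝ) with hcki
  set cli : ℝ := ((k - 1).choose i : ℝ) with hcli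
  have hc0 : 0 ≤ c' := by positivity
  have hck0 : 0 ≤ cki := by positivity
  have hcl0 : 0 ≤ cli := by positivity
  have hik : i ≤ k - 1 := by omega
  have hk1A : k - 1 ≤ A.card := by omega
  have hT1 : 39 / 100 * (c' * cki * cli) ≤ TT := by
    have h1 : TT = ∑ U ∈ A.powersetCard (k - 1), ∑ W ∈ S.powersetCard i, ∑ V ∈ U.powersetCard i,
        (if 0 < ∑ a ∈ (S \ W) ∪ V, x a ∧ -1 < ∑ a ∈ (U \ V) ∪ W, x a then (1 : ℝ) else 0) := by
      rw [hTT]
      refine Finset.sum_congr rfl fun U _ => Finset.sum_congr rfl fun W _ => ?_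
      rw [Finset.sum_ite, Finset.sum_const_zero, add_zero, Finset.sum_const, nsmul_eq_mul, mul_one]
    have h2 : ∑ U ∈ A.powersetCard (k - 1), ∑ W ∈ S.powersetCard i, ∑ V ∈ U.powersetCard i,
        ((1 : ℝ) - (if σ / 8 ≤ |∑ a ∈ W, x a - (i : ℝ) / S.card * σ| then 1 else 0) -
        (if ∑ a ∈ V, x a < -(σ / 5) then 1 else 0) -
        (if ∑ a ∈ U \ V, x a < -(σ / 5) then 1 else 0)) ≤ TT := by
      rw [h1]
      exact Finset.sum_le_sum fun U hU => Finset.sum_le_sum fun W hW =>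
        Finset.sum_le_sum fun V hV => hgood U hU W hW V hV
    have hcardU : ∀ U ∈ A.powersetCard (k - 1), ((U.powersetCard i).card : ℝ) = cli := by
      intro U hU
      rw [Finset.card_powersetCard, (Finset.mem_powersetCard.1 hU).2]
    have hcardS : ((S.powersetCard i).card : ℝ) = cki := by
      rw [Finset.card_powersetCard, hSc]
    rw [triple_sub] at h2
    have e2 := triple_w (A.powersetCard (k - 1)) (S.powersetCard i) (fun U => U.powersetCard i) cli
      hcardU (fun W => if σ / 8 ≤ |∑ a ∈ W, x a - (i : ℝ) / S.card * σ| then (1 : ℝ) else 0)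
    have e3 := triple_v (A.powersetCard (k - 1)) (S.powersetCard i) (fun U => U.powersetCard i)
      (fun _ V => if ∑ a ∈ V, x a < -(σ / 5) then (1 : ℝ) else 0)
    have e4 := triple_v (A.powersetCard (k - 1)) (S.powersetCard i) (fun U => U.powersetCard i)
      (fun U V => if ∑ a ∈ U \ V, x a < -(σ / 5) then (1 : ℝ) else 0)
    have f3 := bad_v A (k - 1) i hik hk1A (fun V => ∑ a ∈ V, x a < -(σ / 5)) (3 / 50) low1
    have f4 := bad_v' A (k - 1) i hik hk1A (fun V => ∑ a ∈ V, x a < -(σ / 5)) (3 / 50) low2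
    rw [sum_ind] at e2
    rw [e2, e3, e4] at h2
    have hcA : ((A.powersetCard (k - 1)).card : ℝ) = c' := by rw [Finset.card_powersetCard]
    rw [hcA, hcardS] at h2
    have g2 : c' * cli * (((S.powersetCard i).filter (fun W => σ / 8 ≤
        |∑ a ∈ W, x a - (i : ℝ) / S.card * σ|)).card : ℝ) ≤ c' * cli * (49 / 100 * cki) :=
      mul_le_mul_of_nonneg_left badW (by positivity)
    have g3 := mul_le_mul_of_nonneg_left f3 hck0
    have g4 := mul_le_mul_of_nonneg_left f4 hck0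
    have e1' : ∑ U ∈ A.powersetCard (k - 1), ∑ _W ∈ S.powersetCard i, ∑ _V ∈ U.powersetCard i,
        (1 : ℝ) = c' * cki * cli := by
      have := triple_w (A.powersetCard (k - 1)) (S.powersetCard i) (fun U => U.powersetCard i) cli
        hcardU (fun _ => (1 : ℝ))
      rw [this, hcA, Finset.sum_const, nsmul_eq_mul, hcardS]
      ring
    rw [e1'] at h2
    rw [← hc', ← hcli] at g3 g4
    linarith [h2, g2, g3, g4]
  -- clean sets are many
  have hclean : 69 / 100 * ((R.card - k).choose (k - 1) : ℝ) ≤ c' := by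
    have hO1 : O.card ≤ R.card - k := by omega
    have h1 := hClean (R.card - k) O.card (k - 1) hO1
    have h2 : R.card - k - O.card = A.card := by omega
    rw [h2, ← hc'] at h1
    have h3 : ((R.card - k : ℕ) : ℝ) = R.card - k := by
      rw [Nat.cast_sub (by omega)]
    have h4 : ((k - 1 : ℕ) : ℝ) = k - 1 := by
      rw [Nat.cast_sub (by omega)]; simp
    rw [h3, h4] at h1
    have h5 : (10 : ℝ) * (k * O.card) ≤ 3 * R.card := by exact_mod_cast hT.out_le
    have h6 : (100000 : ℝ) * k ≤ R.card := by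
      have : 100000 * k ≤ R.card := by omega
      exact_mod_cast this
    have h7 : (0 : ℝ) ≤ ((R.card - k).choose (k - 1) : ℝ) := by positivity
    have h8 : (0 : ℝ) ≤ O.card := by positivity
    have h9 : (0 : ℝ) < (R.card : ℝ) - k := by linarith
    have h10 : 69 / 100 * ((R.card : ℝ) - k) ≤ (R.card : ℝ) - k - (k - 1) * O.card := by
      have h12 : ((k : ℝ) - 1) * O.card = k * O.card - O.card := by ring
      rw [h12]
      clear hgood low1 low2 badW hT1 hTT hmean hvar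
      linarith
    have h11 : ((R.card : ℝ) - k) * (69 / 100 * ((R.card - k).choose (k - 1) : ℝ)) ≤
        ((R.card : ℝ) - k) * c' := by
      refine le_trans ?_ h1
      calc ((R.card : ℝ) - k) * (69 / 100 * ((R.card - k).choose (k - 1) : ℝ)) =
          (69 / 100 * ((R.card : ℝ) - k)) * ((R.card - k).choose (k - 1) : ℝ) := by ring
        _ ≤ _ := mul_le_mul_of_nonneg_right h10 h7
    exact le_of_mul_le_mul_left h11 h9
  -- conclusion
  have hsub : A ⊆ R \ S := Finset.sdiff_subset_sdiff hBR (Finset.Subset.refl S)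
  have hfin : TT ≤ ∑ U ∈ (R \ S).powersetCard (k - 1), ∑ W ∈ S.powersetCard i,
      (((U.powersetCard i).filter (fun V =>
        0 < ∑ a ∈ (S \ W) ∪ V, x a ∧ -1 < ∑ a ∈ (U \ V) ∪ W, x a)).card : ℝ) := by
    rw [hTT]
    apply Finset.sum_le_sum_of_subset_of_nonneg (Finset.powersetCard_mono hsub)
    intro U _ _
    exact Finset.sum_nonneg fun _ _ => Nat.cast_nonneg _
  apply cast_aux
  refine le_trans ?_ (mul_le_mul_of_nonneg_left hfin (by norm_num))
  have h1 : (69 / 100 * ((R.card - k).choose (k - 1) : ℝ)) * (cki * cli) ≤ c' * (cki * cli) :=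
    mul_le_mul_of_nonneg_right hclean (by positivity)
  have h2 : 0 ≤ ((R.card - k).choose (k - 1) : ℝ) * cki * cli := by positivity
  rw [← hcki, ← hcli]
  clear hgood low1 low2 badW hTT hmean hvar hfin
  linarith

end Pool.Agent.Work.MaxSums.helper90Repart
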