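import Mathlib
import Pool.Agent.Work.MP_9999b5_ms.Defs

set_option autoImplicit false

namespace Pool.Agent.Work.MaxSums.helper90Swap

open Finset Pool.Agent.Work.MaxSums

theorem mem_aux {ι : Type} [DecidableEq ι] {R S U W V : Finset ι} {k l i : ℕ}
    (hS : S ⊆ R) (hSc : S.card = k) (hU : U ⊆ R \ S) (hUc : U.card = l)
    (hW : W ⊆ S) (hWc : W.card = i) (hV : V ⊆ U) (hVc : V.card = i) :
    ((S \ W) ∪ V ⊆ R ∧ ((S \ W) ∪ V).card = k) ∧
    ((U \ V) ∪ W ⊆ R \ ((S \ W) ∪ V) ∧ ((U \ V) ∪ W).card = l) := by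
  have hdU : ∀ a ∈ U, a ∈ R ∧ a ∉ S := fun a ha => Finset.mem_sdiff.1 (hU ha)
  have hd1 : Disjoint (S \ W) V := by
    rw [Finset.disjoint_left]
    intro a ha hb
    exact (hdU a (hV hb)).2 (Finset.mem_sdiff.1 ha).1
  have hd2 : Disjoint (U \ V) W := by
    rw [Finset.disjoint_left]
    intro a ha hb
    exact (hdU a (Finset.mem_sdiff.1 ha).1).2 (hW hb)
  refine ⟨⟨?_, ?_⟩, ⟨?_, ?_⟩⟩
  · intro a ha
    rcases Finset.mem_union.1 ha with h | h
    · exact hS (Finset.mem_sdiff.1 h).1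
    · exact (hdU a (hV h)).1
  · rw [Finset.card_union_of_disjoint hd1, Finset.card_sdiff_of_subset hW]
    have := Finset.card_le_card hW
    omega
  · intro a ha
    rw [Finset.mem_sdiff]
    rcases Finset.mem_union.1 ha with h | h
    · obtain ⟨h1, h2⟩ := Finset.mem_sdiff.1 h
      refine ⟨(hdU a h1).1, ?_⟩
      rw [Finset.mem_union, Finset.mem_sdiff]
      rintro (⟨h3, _⟩ | h3)
      · exact (hdU a h1).2 h3
      · exact h2 h3
    · refine ⟨hS (hW h), ?_⟩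
      rw [Finset.mem_union, Finset.mem_sdiff]
      rintro (⟨_, h3⟩ | h3)
      · exact h3 h
      · exact (hdU a (hV h3)).2 (hW h)
  · rw [Finset.card_union_of_disjoint hd2, Finset.card_sdiff_of_subset hV]
    have := Finset.card_le_card hV
    omega

theorem inv_aux {ι : Type} [DecidableEq ι] {R S U W V : Finset ι}
    (hU : U ⊆ R \ S) (hW : W ⊆ S) (hV : V ⊆ U) :
    ((((S \ W) ∪ V) \ V) ∪ W = S) ∧ ((((U \ V) ∪ W) \ W) ∪ V = U) := by
  have hdU : ∀ a ∈ U, a ∉ S := fun a ha => (Finset.mem_sdiff.1 (hU ha)).2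
  constructor
  · ext a
    simp only [Finset.mem_union, Finset.mem_sdiff]
    constructor
    · rintro (⟨(h | h), h'⟩ | h)
      · exact h.1
      · exact absurd h h'
      · exact hW h
    · intro h
      by_cases hw : a ∈ W
      · exact Or.inr hw
      · exact Or.inl ⟨Or.inl ⟨h, hw⟩, fun hv => hdU a (hV hv) h⟩
  · ext a
    simp only [Finset.mem_union, Finset.mem_sdiff]
    constructor
    · rintro (⟨(h | h), h'⟩ | h)
      · exact h.1
      · exact absurd h h'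
      · exact hV h
    · intro h
      by_cases hv : a ∈ V
      · exact Or.inr hv
      · exact Or.inl ⟨Or.inl ⟨h, hv⟩, fun hw => hdU a h (hW hw)⟩

theorem holds : Swap := by
  classical
  intro ι _ R k l i Φ
  have h1 : (k.choose i : ℝ) * (l.choose i : ℝ) *
      ∑ S ∈ R.powersetCard k, ∑ U ∈ (R \ S).powersetCard l, Φ S U =
      ∑ S ∈ R.powersetCard k, ∑ U ∈ (R \ S).powersetCard l,
        ∑ _W ∈ S.powersetCard i, ∑ _V ∈ U.powersetCard i, Φ S U := by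
    rw [Finset.mul_sum]
    refine Finset.sum_congr rfl fun S hS => ?_
    rw [Finset.mul_sum]
    refine Finset.sum_congr rfl fun U hU => ?_
    rw [Finset.sum_const, Finset.sum_const, Finset.card_powersetCard, Finset.card_powersetCard,
      (Finset.mem_powersetCard.1 hS).2, (Finset.mem_powersetCard.1 hU).2, nsmul_eq_mul, nsmul_eq_mul]
    ring
  rw [h1]
  simp only [Finset.sum_sigma']
  refine Finset.sum_nbij'
    (fun t => ⟨(t.1 \ t.2.2.1) ∪ t.2.2.2, (t.2.1 \ t.2.2.2) ∪ t.2.2.1, t.2.2.2, t.2.2.1⟩)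
    (fun t => ⟨(t.1 \ t.2.2.1) ∪ t.2.2.2, (t.2.1 \ t.2.2.2) ∪ t.2.2.1, t.2.2.2, t.2.2.1⟩)
    ?_ ?_ ?_ ?_ ?_
  · rintro ⟨S, U, W, V⟩ h
    simp only [Finset.mem_sigma, Finset.mem_powersetCard] at h ⊢
    obtain ⟨⟨hS, hSc⟩, ⟨hU, hUc⟩, ⟨hW, hWc⟩, hV, hVc⟩ := h
    obtain ⟨h1, h2⟩ := mem_aux hS hSc hU hUc hW hWc hV hVc
    exact ⟨h1, h2, ⟨Finset.subset_union_right, hVc⟩, Finset.subset_union_right, hWc⟩
  · rintro ⟨S, U, W, V⟩ h
    simp only [Finset.mem_sigma, Finset.mem_powersetCard] at h ⊢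
    obtain ⟨⟨hS, hSc⟩, ⟨hU, hUc⟩, ⟨hW, hWc⟩, hV, hVc⟩ := h
    obtain ⟨h1, h2⟩ := mem_aux hS hSc hU hUc hW hWc hV hVc
    exact ⟨h1, h2, ⟨Finset.subset_union_right, hVc⟩, Finset.subset_union_right, hWc⟩
  · rintro ⟨S, U, W, V⟩ h
    simp only [Finset.mem_sigma, Finset.mem_powersetCard] at h
    obtain ⟨⟨hS, hSc⟩, ⟨hU, hUc⟩, ⟨hW, hWc⟩, hV, hVc⟩ := h
    obtain ⟨h1, h2⟩ := inv_aux hU hW hV
    simp only [h1, h2]
  · rintro ⟨S, U, W, V⟩ h
    simp only [Finset.mem_sigma, Finset.mem_powersetCard] at h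
    obtain ⟨⟨hS, hSc⟩, ⟨hU, hUc⟩, ⟨hW, hWc⟩, hV, hVc⟩ := h
    obtain ⟨h1, h2⟩ := inv_aux hU hW hV
    simp only [h1, h2]
  · rintro ⟨S, U, W, V⟩ _
    rfl

end Pool.Agent.Work.MaxSums.helper90Swap
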